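import Mathlib
import Pool.Agent.W93.TD.Stm

/-! Subtask TD-MUL (13522) of project TD (owner helper93). -/

namespace W138.TD

open Finset W93.TD

theorem wt_step (n : ℕ) : wt n = n % 2 + wt (n / 2) := by
  rcases Nat.eq_zero_or_pos n with h | h
  · subst h; simp [wt]
  · unfold wt
    rw [Nat.digits_def' (by norm_num) h, List.sum_cons]

theorem wt_succ_le (n : ℕ) : wt (n + 1) ≤ wt n + 1 := by
  induction n using Nat.strong_induction_on with
  | _ n ih =>
    rw [wt_step (n + 1), wt_step n]
    rcases Nat.even_or_odd n with h | h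
    · obtain ⟨m, rfl⟩ := h
      have h1 : (m + m + 1) / 2 = (m + m) / 2 := by omega
      rw [h1]
      omega
    · obtain ⟨m, rfl⟩ := h
      have h1 : (2 * m + 1 + 1) / 2 = m + 1 := by omega
      have h2 : (2 * m + 1) / 2 = m := by omega
      rw [h1, h2]
      have := ih m (by omega)
      omega

theorem wt_add_pow_le (s : ℕ) : ∀ i : ℕ, wt (i + 2 ^ s) ≤ wt i + 1 := by
  induction s with
  | zero => intro i; simpa using wt_succ_le i
  | succ s ih =>
    intro i
    rw [wt_step (i + 2 ^ (s + 1)), wt_step i]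
    have h1 : (i + 2 ^ (s + 1)) / 2 = i / 2 + 2 ^ s := by
      rw [pow_succ]; omega
    have h2 : (i + 2 ^ (s + 1)) % 2 = i % 2 := by
      rw [pow_succ]; omega
    rw [h1, h2]
    have := ih (i / 2)
    omega

theorem wt_add_top (k : ℕ) : ∀ m : ℕ, m < 2 ^ k → wt (m + 2 ^ k) = wt m + 1 := by
  induction k with
  | zero =>
    intro m hm
    have : m = 0 := by simpa using hm
    subst this
    simp [wt]
  | succ k ih =>
    intro m hm
    rw [wt_step (m + 2 ^ (k + 1)), wt_step m]
    have h1 : (m + 2 ^ (k + 1)) / 2 = m / 2 + 2 ^ k := by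
      rw [pow_succ]; omega
    have h2 : (m + 2 ^ (k + 1)) % 2 = m % 2 := by
      rw [pow_succ]; omega
    rw [h1, h2, ih (m / 2) (by rw [pow_succ] at hm; omega)]
    omega

/-- reduced exponent -/
def rr (k s i : ℕ) : ℕ := if i + 2 ^ s < 2 ^ k then i + 2 ^ s else i + 2 ^ s - 2 ^ k + 1

theorem rr_lt {k s i : ℕ} (hs : s < k) (hi : i < 2 ^ k) : rr k s i < 2 ^ k := by
  unfold rr
  have h1 : 2 ^ s ≤ 2 ^ (k - 1) := Nat.pow_le_pow_right (by norm_num) (by omega)
  have h2 : 2 ^ k = 2 * 2 ^ (k - 1) := by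
    rw [← pow_succ']; congr 1; omega
  have h3 : 0 < 2 ^ (k - 1) := by positivity
  split_ifs <;> omega

theorem wt_rr {k s i : ℕ} (hs : s < k) (hi : i < 2 ^ k) : wt (rr k s i) ≤ wt i + 1 := by
  unfold rr
  have h1 : 2 ^ s ≤ 2 ^ (k - 1) := Nat.pow_le_pow_right (by norm_num) (by omega)
  have h2 : 2 ^ k = 2 * 2 ^ (k - 1) := by
    rw [← pow_succ']; congr 1; omega
  have h3 : 0 < 2 ^ (k - 1) := by positivity
  split_ifs with h
  · exact wt_add_pow_le s i
  · have h4 := wt_succ_le (i + 2 ^ s - 2 ^ k)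
    have h5 := wt_add_top k (i + 2 ^ s - 2 ^ k) (by omega)
    have h6 : i + 2 ^ s - 2 ^ k + 2 ^ k = i + 2 ^ s := by omega
    rw [h6] at h5
    have h7 := wt_add_pow_le s i
    omega

theorem pow_rr {k s i : ℕ} {F : Type} [Field F] [Fintype F] (hF : Fintype.card F = 2 ^ k)
    (x : F) : x ^ (2 ^ s) * x ^ i = x ^ (rr k s i) := by
  unfold rr
  split_ifs with h
  · rw [← pow_add, add_comm]
  · have h1 : x ^ (2 ^ k) = x := by rw [← hF]; exact FiniteField.pow_card x
    have h2 : x ^ (2 ^ s) * x ^ i = x ^ (2 ^ k) * x ^ (i + 2 ^ s - 2 ^ k) := by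
      rw [← pow_add, ← pow_add]; congr 1; omega
    rw [h2, h1, pow_succ', ]

theorem t_MUL : W93.TD.S_MUL := by
  intro k F _ _ hF d s c hs hc
  refine ⟨⟨fun i' j => ∑ i ∈ range (2 ^ k), if rr k s i = i' then c i j else 0, ?_, ?_⟩,
    ⟨fun i j' => ∑ j ∈ range (2 ^ k), if rr k s j = j' then c i j else 0, ?_, ?_⟩⟩
  · intro i' j h
    apply Finset.sum_eq_zero
    intro i hi
    split_ifs with h1
    · apply hc
      have := wt_rr hs (Finset.mem_range.mp hi)
      rw [h1] at this
      omega
    · rfl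
  · intro x y
    unfold P
    have key : ∀ j : ℕ, ∑ i' ∈ range (2 ^ k),
        (∑ i ∈ range (2 ^ k), if rr k s i = i' then c i j else 0) * x ^ i' * y ^ j =
        ∑ i ∈ range (2 ^ k), x ^ (2 ^ s) * (c i j * x ^ i * y ^ j) := by
      intro j
      have e1 : ∀ i' ∈ range (2 ^ k),
          (∑ i ∈ range (2 ^ k), if rr k s i = i' then c i j else 0) * x ^ i' * y ^ j =
          ∑ i ∈ range (2 ^ k), if rr k s i = i' then c i j * x ^ i' * y ^ j else 0 := by
        intro i' _
        rw [Finset.sum_mul, Finset.sum_mul]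
        apply Finset.sum_congr rfl
        intro i _
        split_ifs <;> simp
      rw [Finset.sum_congr rfl e1, Finset.sum_comm]
      apply Finset.sum_congr rfl
      intro i hi
      rw [Finset.sum_ite_eq, if_pos (Finset.mem_range.mpr (rr_lt hs (Finset.mem_range.mp hi))),
        ← pow_rr hF x]
      ring
    rw [Finset.sum_comm (s := range (2 ^ k)) (t := range (2 ^ k))
      (f := fun i' j => (∑ i ∈ range (2 ^ k), if rr k s i = i' then c i j else 0) * x ^ i' * y ^ j),
      Finset.sum_congr rfl (fun j _ => key j), Finset.sum_comm, Finset.mul_sum]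
    apply Finset.sum_congr rfl
    intro i _
    rw [Finset.mul_sum]
  · intro i j' h
    apply Finset.sum_eq_zero
    intro j hj
    split_ifs with h1
    · apply hc
      have := wt_rr hs (Finset.mem_range.mp hj)
      rw [h1] at this
      omega
    · rfl
  · intro x y
    unfold P
    rw [Finset.mul_sum]
    apply Finset.sum_congr rfl
    intro i _
    have e1 : ∀ j' ∈ range (2 ^ k),
        (∑ j ∈ range (2 ^ k), if rr k s j = j' then c i j else 0) * x ^ i * y ^ j' =
        ∑ j ∈ range (2 ^ k), if rr k s j = j' then c i j * x ^ i * y ^ j' else 0 := by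
      intro j' _
      rw [Finset.sum_mul, Finset.sum_mul]
      apply Finset.sum_congr rfl
      intro j _
      split_ifs <;> simp
    rw [Finset.sum_congr rfl e1, Finset.sum_comm, Finset.mul_sum]
    apply Finset.sum_congr rfl
    intro j hj
    rw [Finset.sum_ite_eq, if_pos (Finset.mem_range.mpr (rr_lt hs (Finset.mem_range.mp hj))),
      ← pow_rr hF y]
    ring

end W138.TD
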